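import Pool.Agent.Y386.IR.Stm3

/-!
# Walks of length `2k-1` in the `(2k+1)`-cycle (project IR, part WALK; by helper153)
-/

set_option autoImplicit false

namespace Pool.Agent.Y153.IR

open Pool.Agent.Y386.IR

theorem step_CA (l u δ : ℕ) (hu : u < 2 * (l + 1) + 1) (hδ : δ ≤ 1) :
    CA (2 * (l + 1) + 1) (l + 1) u ((u + (l + 1 + δ)) % (2 * (l + 1) + 1)) := by
  rcases Nat.lt_or_ge (u + (l + 1 + δ)) (2 * (l + 1) + 1) with h | h
  · rw [Nat.mod_eq_of_lt h]
    unfold CA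
    omega
  · rw [Nat.mod_eq_sub_mod h, Nat.mod_eq_of_lt (by omega)]
    unfold CA
    omega

theorem walk_mod (l : ℕ) (w : ℕ → ℕ)
    (h : ∀ j, j < 2 * l + 1 → CA (2 * (l + 1) + 1) (l + 1) (w j) (w (j + 1))) :
    ∀ j, j ≤ 2 * l + 1 → ∃ (s : ℕ) (m : ℤ), s ≤ j ∧
      (w j : ℤ) = w 0 + j * (l + 1) + s - m * (2 * (l + 1) + 1) := by
  intro j
  induction j with
  | zero =>
    intro _
    exact ⟨0, 0, le_refl _, by push_cast; ring⟩
  | succ j ih =>
    intro hj
    obtain ⟨s, m, hs, hw⟩ := ih (by omega)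
    have h1 := h j (by omega)
    unfold CA at h1
    have h2 : (w (j + 1) : ℤ) = w j + (l + 1) ∨ (w (j + 1) : ℤ) = w j + (l + 1) + 1 ∨
        (w (j + 1) : ℤ) = w j + (l + 1) + 1 - (2 * (l + 1) + 1) ∨
        (w (j + 1) : ℤ) = w j + (l + 1) - (2 * (l + 1) + 1) := by omega
    rcases h2 with h2 | h2 | h2 | h2
    · exact ⟨s, m, by omega, by rw [h2, hw]; push_cast; ring⟩
    · exact ⟨s + 1, m, by omega, by rw [h2, hw]; push_cast; ring⟩
    · exact ⟨s + 1, m + 1, by omega, by rw [h2, hw]; push_cast; ring⟩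
    · exact ⟨s, m + 1, by omega, by rw [h2, hw]; push_cast; ring⟩

theorem t_WALK : S_WALK := by
  intro k hk
  obtain ⟨l, rfl⟩ : ∃ l, k = l + 1 := ⟨k - 1, by omega⟩
  have hL : 2 * (l + 1) - 1 = 2 * l + 1 := by omega
  rw [hL]
  constructor
  · intro a b ha hb hab
    obtain ⟨s, hs, hsb⟩ : ∃ s, s ≤ 2 * l + 1 ∧ (a + 1 + s) % (2 * (l + 1) + 1) = b := by
      rcases Nat.lt_or_ge a b with h | h
      · refine ⟨b - a - 1, by omega, ?_⟩
        have h1 : a + 1 + (b - a - 1) = b := by omega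
        rw [h1, Nat.mod_eq_of_lt hb]
      · refine ⟨b + (2 * (l + 1) + 1) - a - 1, by omega, ?_⟩
        have h1 : a + 1 + (b + (2 * (l + 1) + 1) - a - 1) = b + (2 * (l + 1) + 1) := by omega
        rw [h1, Nat.add_mod_right, Nat.mod_eq_of_lt hb]
    refine ⟨fun j => (a + j * (l + 1) + min s j) % (2 * (l + 1) + 1), ?_, ?_,
      fun j => Nat.mod_lt _ (by omega), ?_⟩
    · change (a + 0 * (l + 1) + min s 0) % (2 * (l + 1) + 1) = a
      rw [Nat.zero_mul, Nat.min_zero, Nat.add_zero, Nat.add_zero, Nat.mod_eq_of_lt ha]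
    · change (a + (2 * l + 1) * (l + 1) + min s (2 * l + 1)) % (2 * (l + 1) + 1) = b
      have h1 : a + (2 * l + 1) * (l + 1) + s = (a + 1 + s) + l * (2 * (l + 1) + 1) := by ring
      rw [min_eq_left hs, h1, Nat.add_mul_mod_self_right, hsb]
    · intro j _
      change CA _ _ ((a + j * (l + 1) + min s j) % (2 * (l + 1) + 1))
        ((a + (j + 1) * (l + 1) + min s (j + 1)) % (2 * (l + 1) + 1))
      obtain ⟨δ, hδ, h1⟩ : ∃ δ, δ ≤ 1 ∧ min s (j + 1) = min s j + δ :=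
        ⟨min s (j + 1) - min s j, by omega, by omega⟩
      have h2 : a + (j + 1) * (l + 1) + min s (j + 1) =
          (a + j * (l + 1) + min s j) + (l + 1 + δ) := by
        rw [h1]
        ring
      rw [h2, ← Nat.mod_add_mod (a + j * (l + 1) + min s j)]
      exact step_CA l _ δ (Nat.mod_lt _ (by omega)) hδ
  · intro w _ hCA h0
    obtain ⟨s, m, hs, hw⟩ := walk_mod l w hCA (2 * l + 1) le_rfl
    rw [← h0] at hw
    push_cast at hw
    have h1 : ((2 * (l + 1) + 1 : ℕ) : ℤ) ∣ ((1 + s : ℕ) : ℤ) := by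
      refine ⟨m - l, ?_⟩
      push_cast
      linear_combination (-1 : ℤ) * hw
    have h2 := Nat.le_of_dvd (by omega) (Int.natCast_dvd_natCast.1 h1)
    omega

end Pool.Agent.Y153.IR
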